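import Mathlib

/-!
# A rigid (21_4) configuration

We exhibit a configuration of 21 points and 21 lines in the real projective plane, four points
on every line and four lines through every point, all of whose geometric realizations
are projectively equivalent.
-/

namespace Pool.Agent.Results.MP_409c19_co.RigidFourConfiguration

open Matrix

/-- An `(n_k)` configuration in the real projective plane.  The points of the real projective
plane are the one-dimensional subspaces of `ℝ³`, its lines are the two-dimensional subspaces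
of `ℝ³`, and a point lies on a line when it is contained in it. -/
structure Configuration (n k : ℕ) where
  /-- the points of the configuration -/
  point : Fin n → Submodule ℝ (Fin 3 → ℝ)
  /-- the lines of the configuration -/
  line : Fin n → Submodule ℝ (Fin 3 → ℝ)
  finrank_point : ∀ i, Module.finrank ℝ (point i) = 1
  finrank_line : ∀ j, Module.finrank ℝ (line j) = 2
  point_injective : Function.Injective point
  line_injective : Function.Injective line
  card_lines_through_point : ∀ i, Nat.card {j : Fin n // point i ≤ line j} = k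
  card_points_on_line : ∀ j, Nat.card {i : Fin n // point i ≤ line j} = k

/-- `D` is a geometric realization of the combinatorial type of `C`: it is an `(n_k)`
configuration with exactly the incidences of `C`. -/
def IsRealizationOf {n k : ℕ} (D C : Configuration n k) : Prop :=
  ∀ i j, D.point i ≤ D.line j ↔ C.point i ≤ C.line j

/-- Some projective transformation of the plane (the map induced by an invertible linear map
of `ℝ³`) carries each point and each line of `D` to the corresponding point and line of `E`. -/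
def ProjectivelyEquivalent {n k : ℕ} (D E : Configuration n k) : Prop :=
  ∃ g : (Fin 3 → ℝ) ≃ₗ[ℝ] (Fin 3 → ℝ),
    (∀ i, (D.point i).map (g : (Fin 3 → ℝ) →ₗ[ℝ] (Fin 3 → ℝ)) = E.point i) ∧
    (∀ j, (D.line j).map (g : (Fin 3 → ℝ) →ₗ[ℝ] (Fin 3 → ℝ)) = E.line j)

/-- A configuration is rigid if any two geometric realizations of its combinatorial type are
projectively equivalent. -/
def IsRigid {n k : ℕ} (C : Configuration n k) : Prop :=
  ∀ D E : Configuration n k, IsRealizationOf D C → IsRealizationOf E C →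
    ProjectivelyEquivalent D E

/-! ### Vectors up to scaling -/

/-- `v` is nonzero and a multiple of `w`. -/
def Par (v w : Fin 3 → ℝ) : Prop := v ≠ 0 ∧ ∃ c : ℝ, v = c • w

lemma Par.symm {v w : Fin 3 → ℝ} (h : Par v w) : Par w v := by
  obtain ⟨hv, c, rfl⟩ := h
  have hc : c ≠ 0 := by
    rintro rfl
    exact hv (by simp)
  refine ⟨?_, c⁻¹, ?_⟩
  · rintro rfl
    exact hv (by simp)
  · rw [smul_smul, inv_mul_cancel₀ hc, one_smul]

lemma Par.resc {v : Fin 3 → ℝ} {a b c x y z : ℝ} (h : Par v ![a, b, c]) (g : ℝ)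
    (h1 : a = g * x) (h2 : b = g * y) (h3 : c = g * z) : Par v ![x, y, z] := by
  obtain ⟨hv, k, rfl⟩ := h
  refine ⟨hv, k * g, ?_⟩
  subst h1 h2 h3
  ext i; fin_cases i <;> simp <;> ring

/-- If `N ≠ 0` and `v ≠ 0` satisfy `N × v = 0`, then `v` is a nonzero multiple of `N`. -/
lemma par_of_cross_eq_zero {N v : Fin 3 → ℝ} (hN : N ≠ 0) (hv : v ≠ 0) (h : N ⨯₃ v = 0) :
    Par v N := by
  have hNN : N 0 * N 0 + N 1 * N 1 + N 2 * N 2 ≠ 0 := by
    intro h0
    apply hN
    have h0' : N 0 = 0 := by nlinarith [sq_nonneg (N 0), sq_nonneg (N 1), sq_nonneg (N 2)]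
    have h1' : N 1 = 0 := by nlinarith [sq_nonneg (N 0), sq_nonneg (N 1), sq_nonneg (N 2)]
    have h2' : N 2 = 0 := by nlinarith [sq_nonneg (N 0), sq_nonneg (N 1), sq_nonneg (N 2)]
    ext i; fin_cases i <;> simp [h0', h1', h2']
  rw [cross_apply] at h
  have e0 : N 1 * v 2 - N 2 * v 1 = 0 := by simpa using congrFun h 0
  have e1 : N 2 * v 0 - N 0 * v 2 = 0 := by simpa using congrFun h 1
  have e2 : N 0 * v 1 - N 1 * v 0 = 0 := by simpa using congrFun h 2
  refine ⟨hv, (N 0 * v 0 + N 1 * v 1 + N 2 * v 2) / (N 0 * N 0 + N 1 * N 1 + N 2 * N 2), ?_⟩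
  ext i
  fin_cases i
  · simp only [Fin.zero_eta, Pi.smul_apply, smul_eq_mul]
    rw [div_mul_eq_mul_div, eq_div_iff hNN]
    linear_combination (-(N 1)) * e2 + N 2 * e1
  · simp only [Fin.mk_one, Pi.smul_apply, smul_eq_mul]
    rw [div_mul_eq_mul_div, eq_div_iff hNN]
    linear_combination (N 0) * e2 - N 2 * e0
  · simp only [Fin.reduceFinMk, Pi.smul_apply, smul_eq_mul]
    rw [div_mul_eq_mul_div, eq_div_iff hNN]
    linear_combination (-(N 0)) * e1 + N 1 * e0

lemma cross_eq_zero_of_par {v w : Fin 3 → ℝ} (h : Par v w) : v ⨯₃ w = 0 := by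
  obtain ⟨-, c, rfl⟩ := h
  simp

/-- A nonzero vector orthogonal to two non-proportional vectors is proportional to their
cross product. -/
lemma meet {v m1 m2 : Fin 3 → ℝ} {a b c d e f x y z : ℝ} (hv : v ≠ 0) (hnp : ¬ Par m2 m1)
    (h1 : m1 ⬝ᵥ v = 0) (h2 : m2 ⬝ᵥ v = 0) (p1 : Par m1 ![a, b, c]) (p2 : Par m2 ![d, e, f])
    (g : ℝ) (e1 : b * f - c * e = g * x) (e2 : c * d - a * f = g * y)
    (e3 : a * e - b * d = g * z) : Par v ![x, y, z] := by
  have hne : m1 ⨯₃ m2 ≠ 0 := fun h => hnp (par_of_cross_eq_zero p1.1 p2.1 h)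
  have hpar : Par v (m1 ⨯₃ m2) := by
    apply par_of_cross_eq_zero hne hv
    rw [cross_cross_eq_smul_sub_smul, h1, h2]
    simp
  obtain ⟨-, k, hk'⟩ := hpar
  obtain ⟨-, c1, rfl⟩ := p1
  obtain ⟨-, c2, rfl⟩ := p2
  have hcr : (c1 • ![a, b, c]) ⨯₃ (c2 • ![d, e, f]) = (c1 * c2 * g) • ![x, y, z] := by
    rw [cross_apply]
    ext i
    fin_cases i
    · simp
      linear_combination (c1 * c2) * e1
    · simp
      linear_combination (c1 * c2) * e2
    · simp
      linear_combination (c1 * c2) * e3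
  refine ⟨hv, k * (c1 * c2 * g), ?_⟩
  rw [hk', hcr, smul_smul]

/-- Scaling does not affect orthogonality. -/
lemma Par.dot_eq_zero_iff {v w : Fin 3 → ℝ} {a b c d e f : ℝ} (h1 : Par v ![a, b, c])
    (h2 : Par w ![d, e, f]) : v ⬝ᵥ w = 0 ↔ a * d + b * e + c * f = 0 := by
  obtain ⟨hv, k, rfl⟩ := h1
  obtain ⟨hw, l, rfl⟩ := h2
  have hk : k ≠ 0 := by rintro rfl; exact hv (by simp)
  have hl : l ≠ 0 := by rintro rfl; exact hw (by simp)
  have : (k • ![a, b, c]) ⬝ᵥ (l • ![d, e, f]) = k * l * (a * d + b * e + c * f) := by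
    simp
    ring
  rw [this]
  constructor
  · intro h
    rcases mul_eq_zero.mp h with h | h
    · exact absurd h (mul_ne_zero hk hl)
    · exact h
  · intro h
    rw [h, mul_zero]

/-! ### The configuration -/

/-- Homogeneous coordinates of the 21 points. -/
def P : Fin 21 → Fin 3 → ℤ :=
  ![![0, 1, 1],
    ![1, -2, -1],
    ![1, 2, 1],
    ![1, 0, -1],
    ![1, 4, 5],
    ![0, 1, 2],
    ![5, 2, -2],
    ![4, 7, 2],
    ![1, 2, 2],
    ![4, 1, -4],
    ![5, 8, 4],
    ![1, 0, 0],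
    ![0, 1, 0],
    ![0, 0, 1],
    ![5, 5, 1],
    ![4, 4, -1],
    ![1, 1, 1],
    ![1, 0, -2],
    ![2, 1, 0],
    ![1, 2, 0],
    ![2, 3, 2]]

/-- Homogeneous coordinates of the 21 lines. -/
def L : Fin 21 → Fin 3 → ℤ :=
  ![![1, -1, 0],
    ![2, -2, 1],
    ![2, -4, 1],
    ![4, -2, -1],
    ![0, 0, 1],
    ![1, -2, 5],
    ![2, -1, 0],
    ![1, -2, 1],
    ![2, -1, 4],
    ![1, 0, -1],
    ![0, 1, 0],
    ![8, -7, 4],
    ![7, -8, 5],
    ![4, -5, 5],
    ![1, 0, 0],
    ![0, 1, -1],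
    ![5, -4, 4],
    ![0, 1, -2],
    ![3, -2, 1],
    ![2, -3, 2],
    ![1, 0, 1]]

/-- The combinatorial incidence relation. -/
def inc (i j : Fin 21) : Bool :=
  decide (L j 0 * P i 0 + L j 1 * P i 1 + L j 2 * P i 2 = 0)

/-- Vectors `q i` and covectors `m j` which realize the incidence structure `inc`. -/
structure Model (q m : Fin 21 → Fin 3 → ℝ) : Prop where
  hq : ∀ i, q i ≠ 0
  hm : ∀ j, m j ≠ 0
  hinc : ∀ i j, m j ⬝ᵥ q i = 0 ↔ inc i j = true
  hqd : ∀ i i', i ≠ i' → ¬ Par (q i) (q i')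
  hmd : ∀ j j', j ≠ j' → ¬ Par (m j) (m j')

lemma exists_param {q m : Fin 3 → ℝ} (hq : Par q ![1, 0, 0]) (h : m ⬝ᵥ q ≠ 0) :
    ∃ s t : ℝ, Par m ![1, s, t] := by
  have h0 : m 0 ≠ 0 := by
    intro h0
    apply h
    obtain ⟨-, c, rfl⟩ := hq
    simp [dotProduct, Fin.sum_univ_three, h0]
  have hm : m ≠ 0 := by
    rintro rfl
    exact h0 rfl
  refine ⟨m 1 / m 0, m 2 / m 0, hm, m 0, ?_⟩
  ext i
  fin_cases i
  · simp
  · simp only [Fin.mk_one, Pi.smul_apply, smul_eq_mul, cons_val_one, cons_val_zero]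
    field_simp
  · simp only [Fin.reduceFinMk, Pi.smul_apply, smul_eq_mul, cons_val]
    field_simp

lemma core {q m : Fin 21 → Fin 3 → ℝ} (H : Model q m)
    (p11 : Par (q 11) ![1, 0, 0]) (p12 : Par (q 12) ![0, 1, 0])
    (p13 : Par (q 13) ![0, 0, 1]) (p16 : Par (q 16) ![1, 1, 1]) :
    (∀ i, Par (q i) (fun k => (P i k : ℝ))) ∧ (∀ j, Par (m j) (fun k => (L j k : ℝ))) := by
  have hq := H.hq
  have hm := H.hm
  have hqd : ∀ i i', i ≠ i' → ¬ Par (q i') (q i) := fun i i' h => H.hqd i' i (Ne.symm h)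
  have hmd : ∀ i i', i ≠ i' → ¬ Par (m i') (m i) := fun i i' h => H.hmd i' i (Ne.symm h)
  have on : ∀ i j, inc i j = true → m j ⬝ᵥ q i = 0 := fun i j h => (H.hinc i j).2 h
  have on' : ∀ i j, inc i j = true → q i ⬝ᵥ m j = 0 := fun i j h => by
    rw [dotProduct_comm]; exact (H.hinc i j).2 h
  have off : ∀ i j, inc i j = false → m j ⬝ᵥ q i ≠ 0 := fun i j h h' => by
    rw [(H.hinc i j).1 h'] at h
    exact absurd h (by decide)
  have l0 : Par (m 0) ![1, -1, 0] :=
    meet (hm 0) (hqd 13 16 (by decide)) (on' 13 0 rfl) (on' 16 0 rfl) p13 p16 (-1)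
      (by ring) (by ring) (by ring)
  have l4 : Par (m 4) ![0, 0, 1] :=
    meet (hm 4) (hqd 11 12 (by decide)) (on' 11 4 rfl) (on' 12 4 rfl) p11 p12 (1)
      (by ring) (by ring) (by ring)
  have l9 : Par (m 9) ![1, 0, -1] :=
    meet (hm 9) (hqd 12 16 (by decide)) (on' 12 9 rfl) (on' 16 9 rfl) p12 p16 (1)
      (by ring) (by ring) (by ring)
  have l10 : Par (m 10) ![0, 1, 0] :=
    meet (hm 10) (hqd 11 13 (by decide)) (on' 11 10 rfl) (on' 13 10 rfl) p11 p13 (-1)
      (by ring) (by ring) (by ring)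
  have l14 : Par (m 14) ![1, 0, 0] :=
    meet (hm 14) (hqd 12 13 (by decide)) (on' 12 14 rfl) (on' 13 14 rfl) p12 p13 (1)
      (by ring) (by ring) (by ring)
  have l15 : Par (m 15) ![0, 1, -1] :=
    meet (hm 15) (hqd 11 16 (by decide)) (on' 11 15 rfl) (on' 16 15 rfl) p11 p16 (-1)
      (by ring) (by ring) (by ring)
  have p0 : Par (q 0) ![0, 1, 1] :=
    meet (hq 0) (hmd 14 15 (by decide)) (on 0 14 rfl) (on 0 15 rfl) l14 l15 (1)
      (by ring) (by ring) (by ring)
  -- the line `m 8` does not pass through the point `q 11`, so it has coordinates `(1 : s : t)`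
  obtain ⟨s, t, l8⟩ := exists_param p11 (off 11 8 rfl)
  have p15 : Par (q 15) ![t, t, -s-1] :=
    meet (hq 15) (hmd 0 8 (by decide)) (on 15 0 rfl) (on 15 8 rfl) l0 l8 (-1)
      (by ring) (by ring) (by ring)
  have p19 : Par (q 19) ![s, -1, 0] :=
    meet (hq 19) (hmd 4 8 (by decide)) (on 19 4 rfl) (on 19 8 rfl) l4 l8 (-1)
      (by ring) (by ring) (by ring)
  have l6 : Par (m 6) ![1, s, 0] :=
    meet (hm 6) (hqd 13 19 (by decide)) (on' 13 6 rfl) (on' 19 6 rfl) p13 p19 (1)
      (by ring) (by ring) (by ring)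
  have l16 : Par (m 16) ![s+t+1, -t, t] :=
    meet (hm 16) (hqd 0 15 (by decide)) (on' 0 16 rfl) (on' 15 16 rfl) p0 p15 (-1)
      (by ring) (by ring) (by ring)
  have p2 : Par (q 2) ![s, -1, s] :=
    meet (hq 2) (hmd 6 9 (by decide)) (on 2 6 rfl) (on 2 9 rfl) l6 l9 (-1)
      (by ring) (by ring) (by ring)
  have p8 : Par (q 8) ![s, -1, -1] :=
    meet (hq 8) (hmd 6 15 (by decide)) (on 8 6 rfl) (on 8 15 rfl) l6 l15 (-1)
      (by ring) (by ring) (by ring)
  have l17 : Par (m 17) ![0, s, 1] :=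
    meet (hm 17) (hqd 2 11 (by decide)) (on' 2 17 rfl) (on' 11 17 rfl) p2 p11 (1)
      (by ring) (by ring) (by ring)
  have p1 : Par (q 1) ![s*t-s, 1, -s] :=
    meet (hq 1) (hmd 8 17 (by decide)) (on 1 8 rfl) (on 1 17 rfl) l8 l17 (-1)
      (by ring) (by ring) (by ring)
  have l20 : Par (m 20) ![1, 0, t-1] :=
    meet (hm 20) (hqd 1 12 (by decide)) (on' 1 20 rfl) (on' 12 20 rfl) p1 p12 (s)
      (by ring) (by ring) (by ring)
  have p3 : Par (q 3) ![t-1, 0, -1] :=
    meet (hq 3) (hmd 10 20 (by decide)) (on 3 10 rfl) (on 3 20 rfl) l10 l20 (1)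
      (by ring) (by ring) (by ring)
  have p9 : Par (q 9) ![t^2-t, s*t-s+t^2-t-1, -t] :=
    meet (hq 9) (hmd 16 20 (by decide)) (on 9 16 rfl) (on 9 20 rfl) l16 l20 (-1)
      (by ring) (by ring) (by ring)
  have l7 : Par (m 7) ![1, -t, t-1] :=
    meet (hm 7) (hqd 3 16 (by decide)) (on' 3 7 rfl) (on' 16 7 rfl) p3 p16 (1)
      (by ring) (by ring) (by ring)
  have l19 : Par (m 19) ![1, s-t+1, t-1] :=
    meet (hm 19) (hqd 3 8 (by decide)) (on' 3 19 rfl) (on' 8 19 rfl) p3 p8 (-1)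
      (by ring) (by ring) (by ring)
  have p5 : Par (q 5) ![0, t-1, t] :=
    meet (hq 5) (hmd 7 14 (by decide)) (on 5 7 rfl) (on 5 14 rfl) l7 l14 (1)
      (by ring) (by ring) (by ring)
  have p6 : Par (q 6) ![s-t^2+t, -1, t-1] :=
    meet (hq 6) (hmd 8 19 (by decide)) (on 6 8 rfl) (on 6 19 rfl) l8 l19 (-1)
      (by ring) (by ring) (by ring)
  have p18 : Par (q 18) ![t, 1, 0] :=
    meet (hq 18) (hmd 4 7 (by decide)) (on 18 4 rfl) (on 18 7 rfl) l4 l7 (1)
      (by ring) (by ring) (by ring)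
  have l1 : Par (m 1) ![1, s*t, -s*t+s] :=
    meet (hm 1) (hqd 5 8 (by decide)) (on' 5 1 rfl) (on' 8 1 rfl) p5 p8 (1)
      (by ring) (by ring) (by ring)
  have l2 : Par (m 2) ![1, -t, -s*t+s-t^2+2*t] :=
    meet (hm 2) (hqd 9 18 (by decide)) (on' 9 2 rfl) (on' 18 2 rfl) p9 p18 (t)
      (by ring) (by ring) (by ring)
  -- the incidence of `q 6` and `m 2` forces `t = 2`
  have hst : s + t ≠ 0 := by
    intro h0
    apply off 0 8 rfl
    rw [l8.dot_eq_zero_iff p0]
    linear_combination h0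
  have ht0 : t ≠ 0 := by
    intro h0
    apply off 1 7 rfl
    rw [l7.dot_eq_zero_iff p1]
    linear_combination (-1) * h0
  have c1 : t * ((s + t) * (t - 2)) = 0 := by
    have h0 := on 6 2 rfl
    rw [l2.dot_eq_zero_iff p6] at h0
    linear_combination (-1) * h0
  have ht2 : t = 2 := by
    have h0 := ((mul_eq_zero.mp c1).resolve_left ht0)
    have h1 := ((mul_eq_zero.mp h0).resolve_left hst)
    linear_combination h1
  subst ht2
  replace l8 : Par (m 8) ![1, s, 2] :=
    l8.resc (1) (by ring) (by ring) (by ring)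
  replace p15 : Par (q 15) ![2, 2, -s-1] :=
    p15.resc (1) (by ring) (by ring) (by ring)
  replace l16 : Par (m 16) ![s+3, -2, 2] :=
    l16.resc (1) (by ring) (by ring) (by ring)
  replace p1 : Par (q 1) ![s, 1, -s] :=
    p1.resc (1) (by ring) (by ring) (by ring)
  replace l20 : Par (m 20) ![1, 0, 1] :=
    l20.resc (1) (by ring) (by ring) (by ring)
  replace p3 : Par (q 3) ![1, 0, -1] :=
    p3.resc (1) (by ring) (by ring) (by ring)
  replace p9 : Par (q 9) ![2, s+1, -2] :=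
    p9.resc (1) (by ring) (by ring) (by ring)
  replace l7 : Par (m 7) ![1, -2, 1] :=
    l7.resc (1) (by ring) (by ring) (by ring)
  replace l19 : Par (m 19) ![1, s-1, 1] :=
    l19.resc (1) (by ring) (by ring) (by ring)
  replace p5 : Par (q 5) ![0, 1, 2] :=
    p5.resc (1) (by ring) (by ring) (by ring)
  replace p6 : Par (q 6) ![s-2, -1, 1] :=
    p6.resc (1) (by ring) (by ring) (by ring)
  replace p18 : Par (q 18) ![2, 1, 0] :=
    p18.resc (1) (by ring) (by ring) (by ring)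
  replace l1 : Par (m 1) ![1, 2*s, -s] :=
    l1.resc (1) (by ring) (by ring) (by ring)
  replace l2 : Par (m 2) ![1, -2, -s] :=
    l2.resc (1) (by ring) (by ring) (by ring)
  have l5 : Par (m 5) ![s, -2*s, s-2] :=
    meet (hm 5) (hqd 1 18 (by decide)) (on' 1 5 rfl) (on' 18 5 rfl) p1 p18 (1)
      (by ring) (by ring) (by ring)
  have l13 : Par (m 13) ![2, s-2, -s+2] :=
    meet (hm 13) (hqd 0 6 (by decide)) (on' 0 13 rfl) (on' 6 13 rfl) p0 p6 (1)
      (by ring) (by ring) (by ring)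
  have l18 : Par (m 18) ![s+2, 2*s, -s] :=
    meet (hm 18) (hqd 2 5 (by decide)) (on' 2 18 rfl) (on' 5 18 rfl) p2 p5 (-1)
      (by ring) (by ring) (by ring)
  have p4 : Par (q 4) ![s, -2, s-2] :=
    meet (hq 4) (hmd 18 19 (by decide)) (on 4 18 rfl) (on 4 19 rfl) l18 l19 (s+1)
      (by ring) (by ring) (by ring)
  have p7 : Par (q 7) ![2, -s+3, -2*s] :=
    meet (hq 7) (hmd 5 16 (by decide)) (on 7 5 rfl) (on 7 16 rfl) l5 l16 (-s-2)
      (by ring) (by ring) (by ring)
  -- the incidence of `q 7` and `m 18` forces `s = -1/2`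
  have hs : s = -1 / 2 := by
    have h0 := on 7 18 rfl
    rw [l18.dot_eq_zero_iff p7] at h0
    linear_combination (1 / 8) * h0
  subst hs
  replace l8 : Par (m 8) ![2, -1, 4] :=
    l8.resc ((1)/2) (by ring) (by ring) (by ring)
  replace p15 : Par (q 15) ![4, 4, -1] :=
    p15.resc ((1)/2) (by ring) (by ring) (by ring)
  replace p19 : Par (q 19) ![1, 2, 0] :=
    p19.resc ((-1)/2) (by ring) (by ring) (by ring)
  replace l6 : Par (m 6) ![2, -1, 0] :=
    l6.resc ((1)/2) (by ring) (by ring) (by ring)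
  replace l16 : Par (m 16) ![5, -4, 4] :=
    l16.resc ((1)/2) (by ring) (by ring) (by ring)
  replace p2 : Par (q 2) ![1, 2, 1] :=
    p2.resc ((-1)/2) (by ring) (by ring) (by ring)
  replace p8 : Par (q 8) ![1, 2, 2] :=
    p8.resc ((-1)/2) (by ring) (by ring) (by ring)
  replace l17 : Par (m 17) ![0, 1, -2] :=
    l17.resc ((-1)/2) (by ring) (by ring) (by ring)
  replace p1 : Par (q 1) ![1, -2, -1] :=
    p1.resc ((-1)/2) (by ring) (by ring) (by ring)
  replace p9 : Par (q 9) ![4, 1, -4] :=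
    p9.resc ((1)/2) (by ring) (by ring) (by ring)
  replace l19 : Par (m 19) ![2, -3, 2] :=
    l19.resc ((1)/2) (by ring) (by ring) (by ring)
  replace p6 : Par (q 6) ![5, 2, -2] :=
    p6.resc ((-1)/2) (by ring) (by ring) (by ring)
  replace l1 : Par (m 1) ![2, -2, 1] :=
    l1.resc ((1)/2) (by ring) (by ring) (by ring)
  replace l2 : Par (m 2) ![2, -4, 1] :=
    l2.resc ((1)/2) (by ring) (by ring) (by ring)
  replace l5 : Par (m 5) ![1, -2, 5] :=
    l5.resc ((-1)/2) (by ring) (by ring) (by ring)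
  replace l13 : Par (m 13) ![4, -5, 5] :=
    l13.resc ((1)/2) (by ring) (by ring) (by ring)
  replace l18 : Par (m 18) ![3, -2, 1] :=
    l18.resc ((1)/2) (by ring) (by ring) (by ring)
  replace p4 : Par (q 4) ![1, 4, 5] :=
    p4.resc ((-1)/2) (by ring) (by ring) (by ring)
  replace p7 : Par (q 7) ![4, 7, 2] :=
    p7.resc ((1)/2) (by ring) (by ring) (by ring)
  have p10 : Par (q 10) ![5, 8, 4] :=
    meet (hq 10) (hmd 13 17 (by decide)) (on 10 13 rfl) (on 10 17 rfl) l13 l17 (1)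
      (by ring) (by ring) (by ring)
  have p14 : Par (q 14) ![5, 5, 1] :=
    meet (hq 14) (hmd 0 5 (by decide)) (on 14 0 rfl) (on 14 5 rfl) l0 l5 (-1)
      (by ring) (by ring) (by ring)
  have p17 : Par (q 17) ![1, 0, -2] :=
    meet (hq 17) (hmd 1 2 (by decide)) (on 17 1 rfl) (on 17 2 rfl) l1 l2 (2)
      (by ring) (by ring) (by ring)
  have p20 : Par (q 20) ![2, 3, 2] :=
    meet (hq 20) (hmd 1 9 (by decide)) (on 20 1 rfl) (on 20 9 rfl) l1 l9 (1)
      (by ring) (by ring) (by ring)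
  have l3 : Par (m 3) ![4, -2, -1] :=
    meet (hm 3) (hqd 7 10 (by decide)) (on' 7 3 rfl) (on' 10 3 rfl) p7 p10 (3)
      (by ring) (by ring) (by ring)
  have l11 : Par (m 11) ![8, -7, 4] :=
    meet (hm 11) (hqd 4 10 (by decide)) (on' 4 11 rfl) (on' 10 11 rfl) p4 p10 (-3)
      (by ring) (by ring) (by ring)
  have l12 : Par (m 12) ![7, -8, 5] :=
    meet (hm 12) (hqd 4 9 (by decide)) (on' 4 12 rfl) (on' 9 12 rfl) p4 p9 (-3)
      (by ring) (by ring) (by ring)
  constructor
  · intro i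
    have key : (fun k => (P i k : ℝ)) = ![(P i 0 : ℝ), (P i 1 : ℝ), (P i 2 : ℝ)] := by
      ext k; fin_cases k <;> rfl
    rw [key]
    fin_cases i
    · simpa [P] using p0
    · simpa [P] using p1
    · simpa [P] using p2
    · simpa [P] using p3
    · simpa [P] using p4
    · simpa [P] using p5
    · simpa [P] using p6
    · simpa [P] using p7
    · simpa [P] using p8
    · simpa [P] using p9
    · simpa [P] using p10
    · simpa [P] using p11
    · simpa [P] using p12
    · simpa [P] using p13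
    · simpa [P] using p14
    · simpa [P] using p15
    · simpa [P] using p16
    · simpa [P] using p17
    · simpa [P] using p18
    · simpa [P] using p19
    · simpa [P] using p20
  · intro j
    have key : (fun k => (L j k : ℝ)) = ![(L j 0 : ℝ), (L j 1 : ℝ), (L j 2 : ℝ)] := by
      ext k; fin_cases k <;> rfl
    rw [key]
    fin_cases j
    · simpa [L] using l0
    · simpa [L] using l1
    · simpa [L] using l2
    · simpa [L] using l3
    · simpa [L] using l4
    · simpa [L] using l5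
    · simpa [L] using l6
    · simpa [L] using l7
    · simpa [L] using l8
    · simpa [L] using l9
    · simpa [L] using l10
    · simpa [L] using l11
    · simpa [L] using l12
    · simpa [L] using l13
    · simpa [L] using l14
    · simpa [L] using l15
    · simpa [L] using l16
    · simpa [L] using l17
    · simpa [L] using l18
    · simpa [L] using l19
    · simpa [L] using l20

/-! ### Points and lines as subspaces -/

/-- The point with homogeneous coordinates `v`. -/
def ptOf (v : Fin 3 → ℝ) : Submodule ℝ (Fin 3 → ℝ) := Submodule.span ℝ {v}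

/-- The line with homogeneous coordinates `w`. -/
noncomputable def lnOf (w : Fin 3 → ℝ) : Submodule ℝ (Fin 3 → ℝ) :=
  LinearMap.ker (dotProductEquiv ℝ (Fin 3) w)

lemma mem_lnOf {w x : Fin 3 → ℝ} : x ∈ lnOf w ↔ w ⬝ᵥ x = 0 := by
  simp [lnOf]

lemma ptOf_le_lnOf {v w : Fin 3 → ℝ} : ptOf v ≤ lnOf w ↔ w ⬝ᵥ v = 0 := by
  rw [ptOf, Submodule.span_singleton_le_iff_mem, mem_lnOf]

lemma finrank_ptOf {v : Fin 3 → ℝ} (hv : v ≠ 0) : Module.finrank ℝ (ptOf v) = 1 :=
  finrank_span_singleton hv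

lemma finrank_lnOf {w : Fin 3 → ℝ} (hw : w ≠ 0) : Module.finrank ℝ (lnOf w) = 2 := by
  have h : (dotProductEquiv ℝ (Fin 3) w) ≠ 0 := by
    intro h
    exact hw ((dotProductEquiv ℝ (Fin 3)).map_eq_zero_iff.mp h)
  have := Module.Dual.finrank_ker_add_one_of_ne_zero h
  rw [Module.finrank_fin_fun] at this
  rw [lnOf]
  omega

lemma exists_ptOf {U : Submodule ℝ (Fin 3 → ℝ)} (h : Module.finrank ℝ U = 1) :
    ∃ v, v ≠ 0 ∧ U = ptOf v := by
  obtain ⟨v, hv, hU⟩ := finrank_eq_one_iff'.mp h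
  refine ⟨v, fun h0 => hv (Subtype.ext h0), ?_⟩
  apply le_antisymm
  · intro x hx
    obtain ⟨c, hc⟩ := hU ⟨x, hx⟩
    rw [ptOf, Submodule.mem_span_singleton]
    exact ⟨c, congrArg Subtype.val hc⟩
  · rw [ptOf, Submodule.span_singleton_le_iff_mem]
    exact v.2

lemma exists_lnOf {U : Submodule ℝ (Fin 3 → ℝ)} (h : Module.finrank ℝ U = 2) :
    ∃ w, w ≠ 0 ∧ U = lnOf w := by
  have hlt : U < ⊤ := by
    rw [lt_top_iff_ne_top]
    rintro rfl
    rw [finrank_top, Module.finrank_fin_fun] at h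
    omega
  obtain ⟨f, hf, hU⟩ := Submodule.exists_le_ker_of_lt_top U hlt
  obtain ⟨w, rfl⟩ := (dotProductEquiv ℝ (Fin 3)).surjective f
  have hw : w ≠ 0 := by
    rintro rfl
    exact hf (map_zero _)
  refine ⟨w, hw, ?_⟩
  apply Submodule.eq_of_le_of_finrank_eq hU
  rw [h]
  exact (finrank_lnOf hw).symm

lemma ptOf_eq_iff {v w : Fin 3 → ℝ} (hv : v ≠ 0) (hw : w ≠ 0) : ptOf v = ptOf w ↔ Par v w := by
  constructor
  · intro h
    have hmem : v ∈ ptOf w := by
      rw [← h]
      exact Submodule.mem_span_singleton_self v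
    obtain ⟨c, hc⟩ := Submodule.mem_span_singleton.mp hmem
    exact ⟨hv, c, hc.symm⟩
  · intro h
    apply le_antisymm
    · obtain ⟨-, c, rfl⟩ := h
      rw [ptOf, Submodule.span_singleton_le_iff_mem]
      exact Submodule.smul_mem _ _ (Submodule.mem_span_singleton_self w)
    · obtain ⟨-, c, rfl⟩ := h.symm
      rw [ptOf, Submodule.span_singleton_le_iff_mem]
      exact Submodule.smul_mem _ _ (Submodule.mem_span_singleton_self v)

lemma lnOf_eq_iff {v w : Fin 3 → ℝ} (hv : v ≠ 0) (hw : w ≠ 0) : lnOf v = lnOf w ↔ Par v w := by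
  constructor
  · intro h
    apply par_of_cross_eq_zero hw hv
    -- for every `y`, the vector `v × y` is orthogonal to `v`, hence to `w`
    have key : ∀ y : Fin 3 → ℝ, y ⬝ᵥ (w ⨯₃ v) = 0 := by
      intro y
      have h1 : v ⨯₃ y ∈ lnOf v := by
        rw [mem_lnOf]
        exact dot_self_cross v y
      rw [h, mem_lnOf] at h1
      rw [triple_product_permutation] at h1
      rw [triple_product_permutation] at h1
      exact h1
    exact dotProduct_self_eq_zero.mp (key (w ⨯₃ v))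
  · intro h
    apply le_antisymm
    · obtain ⟨-, c, rfl⟩ := h.symm
      intro x hx
      rw [mem_lnOf] at hx ⊢
      rw [smul_dotProduct, hx, smul_zero]
    · obtain ⟨-, c, rfl⟩ := h
      intro x hx
      rw [mem_lnOf] at hx ⊢
      rw [smul_dotProduct, hx, smul_zero]

/-! ### Linear changes of coordinates -/

/-- The action of `g` on line coordinates. -/
noncomputable def contra (g : (Fin 3 → ℝ) ≃ₗ[ℝ] (Fin 3 → ℝ)) :
    (Fin 3 → ℝ) ≃ₗ[ℝ] (Fin 3 → ℝ) :=
  (dotProductEquiv ℝ (Fin 3)).trans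
    (g.symm.dualMap.trans (dotProductEquiv ℝ (Fin 3)).symm)

lemma contra_dot (g : (Fin 3 → ℝ) ≃ₗ[ℝ] (Fin 3 → ℝ)) (w x : Fin 3 → ℝ) :
    contra g w ⬝ᵥ x = w ⬝ᵥ g.symm x := by
  have h : dotProductEquiv ℝ (Fin 3) (contra g w) =
      g.symm.dualMap (dotProductEquiv ℝ (Fin 3) w) := by
    simp [contra]
  have h2 := congrArg (fun f : Module.Dual ℝ (Fin 3 → ℝ) => f x) h
  simpa using h2

lemma map_ptOf (g : (Fin 3 → ℝ) ≃ₗ[ℝ] (Fin 3 → ℝ)) (v : Fin 3 → ℝ) :
    (ptOf v).map (g : (Fin 3 → ℝ) →ₗ[ℝ] (Fin 3 → ℝ)) = ptOf (g v) := by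
  rw [ptOf, ptOf, Submodule.map_span]
  simp

lemma map_lnOf (g : (Fin 3 → ℝ) ≃ₗ[ℝ] (Fin 3 → ℝ)) (w : Fin 3 → ℝ) :
    (lnOf w).map (g : (Fin 3 → ℝ) →ₗ[ℝ] (Fin 3 → ℝ)) = lnOf (contra g w) := by
  ext x
  rw [mem_lnOf, contra_dot, Submodule.mem_map]
  constructor
  · rintro ⟨y, hy, rfl⟩
    rw [mem_lnOf] at hy
    simpa using hy
  · intro h
    refine ⟨g.symm x, ?_, by simp⟩
    rwa [mem_lnOf]

lemma Model.transform {q m : Fin 21 → Fin 3 → ℝ} (H : Model q m)
    (g : (Fin 3 → ℝ) ≃ₗ[ℝ] (Fin 3 → ℝ)) :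
    Model (fun i => g (q i)) (fun j => contra g (m j)) where
  hq i := fun h => H.hq i (g.map_eq_zero_iff.mp h)
  hm j := fun h => H.hm j ((contra g).map_eq_zero_iff.mp h)
  hinc i j := by
    rw [contra_dot]
    simpa using H.hinc i j
  hqd i i' h := by
    rintro ⟨-, c, hc⟩
    apply H.hqd i i' h
    refine ⟨H.hq i, c, g.injective ?_⟩
    rw [hc, map_smul]
  hmd j j' h := by
    rintro ⟨-, c, hc⟩
    apply H.hmd j j' h
    refine ⟨H.hm j, c, (contra g).injective ?_⟩
    rw [hc, map_smul]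

/-- Every model can be brought to the normal form. -/
lemma Model.exists_normal_form {q m : Fin 21 → Fin 3 → ℝ} (H : Model q m) :
    ∃ g : (Fin 3 → ℝ) ≃ₗ[ℝ] (Fin 3 → ℝ),
      (∀ i, Par (g (q i)) (fun k => (P i k : ℝ))) ∧
      (∀ j, Par (contra g (m j)) (fun k => (L j k : ℝ))) := by
  -- the points 11, 12, 13 are not collinear
  have hdet : q 13 ⬝ᵥ (q 11 ⨯₃ q 12) ≠ 0 := by
    intro h0
    have hpar : Par (m 4) (q 11 ⨯₃ q 12) := by
      apply par_of_cross_eq_zero _ (H.hm 4)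
      · have h1 : m 4 ⬝ᵥ q 11 = 0 := (H.hinc 11 4).2 rfl
        have h2 : m 4 ⬝ᵥ q 12 = 0 := (H.hinc 12 4).2 rfl
        rw [dotProduct_comm] at h1 h2
        rw [cross_cross_eq_smul_sub_smul, h1, h2]
        simp
      · intro h1
        exact H.hqd 12 11 (by decide) (par_of_cross_eq_zero (H.hq 11) (H.hq 12) h1)
    have h2 : m 4 ⬝ᵥ q 13 = 0 := by
      obtain ⟨-, c, hc⟩ := hpar
      rw [hc, smul_dotProduct, dotProduct_comm, h0, smul_zero]
    have h3 := (H.hinc 13 4).1 h2
    exact absurd h3 (by decide)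
  have hli : LinearIndependent ℝ ![q 11, q 12, q 13] := by
    have hdet2 : Matrix.det (Matrix.of ![q 11, q 12, q 13]) ≠ 0 := by
      intro h0
      apply hdet
      rw [triple_product_permutation, triple_product_permutation, triple_product_permutation]
      rw [triple_product_permutation]
      rw [triple_product_eq_det]
      exact h0
    have := Matrix.linearIndependent_rows_iff_isUnit
      (A := (Matrix.of ![q 11, q 12, q 13] : Matrix (Fin 3) (Fin 3) ℝ))
    rw [Matrix.isUnit_iff_isUnit_det] at this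
    exact this.2 (isUnit_iff_ne_zero.mpr hdet2)
  let b := basisOfLinearIndependentOfCardEqFinrank hli (by simp)
  have hb : ⇑b = ![q 11, q 12, q 13] := coe_basisOfLinearIndependentOfCardEqFinrank hli (by simp)
  let g0 : (Fin 3 → ℝ) ≃ₗ[ℝ] (Fin 3 → ℝ) := b.equivFun
  have g11 : g0 (q 11) = ![1, 0, 0] := by
    have : q 11 = b 0 := by rw [hb]; rfl
    rw [this]
    ext k
    simp only [g0, Module.Basis.equivFun_self]
    fin_cases k <;> simp
  have g12 : g0 (q 12) = ![0, 1, 0] := by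
    have : q 12 = b 1 := by rw [hb]; rfl
    rw [this]
    ext k
    simp only [g0, Module.Basis.equivFun_self]
    fin_cases k <;> simp
  have g13 : g0 (q 13) = ![0, 0, 1] := by
    have : q 13 = b 2 := by rw [hb]; rfl
    rw [this]
    ext k
    simp only [g0, Module.Basis.equivFun_self]
    fin_cases k <;> simp
  have H0 := H.transform g0
  have on' : ∀ i j, inc i j = true → g0 (q i) ⬝ᵥ contra g0 (m j) = 0 := fun i j h => by
    rw [dotProduct_comm]; exact (H0.hinc i j).2 h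
  have off : ∀ i j, inc i j = false → contra g0 (m j) ⬝ᵥ g0 (q i) ≠ 0 := fun i j h h' => by
    rw [(H0.hinc i j).1 h'] at h
    exact absurd h (by decide)
  have p11 : Par (g0 (q 11)) ![1, 0, 0] := ⟨H0.hq 11, 1, by rw [one_smul, g11]⟩
  have p12 : Par (g0 (q 12)) ![0, 1, 0] := ⟨H0.hq 12, 1, by rw [one_smul, g12]⟩
  have p13 : Par (g0 (q 13)) ![0, 0, 1] := ⟨H0.hq 13, 1, by rw [one_smul, g13]⟩
  have l4 : Par (contra g0 (m 4)) ![0, 0, 1] :=
    meet (H0.hm 4) (H0.hqd 12 11 (by decide)) (on' 11 4 rfl) (on' 12 4 rfl) p11 p12 (1)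
      (by ring) (by ring) (by ring)
  have l10 : Par (contra g0 (m 10)) ![0, 1, 0] :=
    meet (H0.hm 10) (H0.hqd 13 11 (by decide)) (on' 11 10 rfl) (on' 13 10 rfl) p11 p13 (-1)
      (by ring) (by ring) (by ring)
  have l14 : Par (contra g0 (m 14)) ![1, 0, 0] :=
    meet (H0.hm 14) (H0.hqd 13 12 (by decide)) (on' 12 14 rfl) (on' 13 14 rfl) p12 p13 (1)
      (by ring) (by ring) (by ring)
  have p16 : Par (g0 (q 16)) ![g0 (q 16) 0, g0 (q 16) 1, g0 (q 16) 2] := by
    refine ⟨H0.hq 16, 1, ?_⟩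
    ext k
    fin_cases k <;> simp
  have n0 : g0 (q 16) 0 ≠ 0 := by
    intro h0
    apply off 16 14 rfl
    rw [l14.dot_eq_zero_iff p16, h0]
    ring
  have n1 : g0 (q 16) 1 ≠ 0 := by
    intro h0
    apply off 16 10 rfl
    rw [l10.dot_eq_zero_iff p16, h0]
    ring
  have n2 : g0 (q 16) 2 ≠ 0 := by
    intro h0
    apply off 16 4 rfl
    rw [l4.dot_eq_zero_iff p16, h0]
    ring
  have hn : ∀ k, (g0 (q 16) k)⁻¹ ≠ 0 := by
    intro k
    fin_cases k
    · exact inv_ne_zero n0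
    · exact inv_ne_zero n1
    · exact inv_ne_zero n2
  let d : (Fin 3 → ℝ) ≃ₗ[ℝ] (Fin 3 → ℝ) :=
    LinearEquiv.piCongrRight (fun k => LinearEquiv.smulOfNeZero ℝ ℝ ((g0 (q 16) k)⁻¹) (hn k))
  have hd : ∀ x k, d x k = (g0 (q 16) k)⁻¹ * x k := by
    intro x k
    simp [d]
  let g : (Fin 3 → ℝ) ≃ₗ[ℝ] (Fin 3 → ℝ) := g0.trans d
  have hg : ∀ x k, g x k = (g0 (q 16) k)⁻¹ * g0 x k := fun x k => hd (g0 x) k
  have H1 := H.transform g
  refine ⟨g, core H1 ?_ ?_ ?_ ?_⟩
  · refine ⟨H1.hq 11, (g0 (q 16) 0)⁻¹, ?_⟩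
    ext k
    rw [hg, g11]
    fin_cases k <;> simp
  · refine ⟨H1.hq 12, (g0 (q 16) 1)⁻¹, ?_⟩
    ext k
    rw [hg, g12]
    fin_cases k <;> simp
  · refine ⟨H1.hq 13, (g0 (q 16) 2)⁻¹, ?_⟩
    ext k
    rw [hg, g13]
    fin_cases k <;> simp
  · refine ⟨H1.hq 16, 1, ?_⟩
    ext k
    rw [hg]
    fin_cases k
    · simp [n0]
    · simp [n1]
    · simp [n2]

/-! ### The configuration and its rigidity -/

/-- The real vector with the given integer coordinates. -/
def toR (v : Fin 3 → ℤ) : Fin 3 → ℝ := fun k => (v k : ℝ)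

lemma toR_ne_zero {v : Fin 3 → ℤ} (h : v ≠ 0) : toR v ≠ 0 := by
  intro h0
  apply h
  ext k
  have := congrFun h0 k
  simpa [toR] using this

lemma toR_dot (v w : Fin 3 → ℤ) :
    toR v ⬝ᵥ toR w = ((v 0 * w 0 + v 1 * w 1 + v 2 * w 2 : ℤ) : ℝ) := by
  simp [toR, dotProduct, Fin.sum_univ_three]

lemma not_par_toR {v w : Fin 3 → ℤ} (h : v 1 * w 2 - v 2 * w 1 ≠ 0 ∨ v 2 * w 0 - v 0 * w 2 ≠ 0 ∨
    v 0 * w 1 - v 1 * w 0 ≠ 0) : ¬ Par (toR v) (toR w) := by
  intro hp
  have h0 := cross_eq_zero_of_par hp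
  rw [cross_apply] at h0
  have e0 : (v 1 : ℝ) * w 2 - v 2 * w 1 = 0 := by simpa [toR] using congrFun h0 0
  have e1 : (v 2 : ℝ) * w 0 - v 0 * w 2 = 0 := by simpa [toR] using congrFun h0 1
  have e2 : (v 0 : ℝ) * w 1 - v 1 * w 0 = 0 := by simpa [toR] using congrFun h0 2
  rcases h with h | h | h
  · exact h (by exact_mod_cast e0)
  · exact h (by exact_mod_cast e1)
  · exact h (by exact_mod_cast e2)

lemma P_ne_zero : ∀ i, P i ≠ 0 := by decide
lemma L_ne_zero : ∀ j, L j ≠ 0 := by decide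

lemma P_cross : ∀ i i', i ≠ i' → (P i 1 * P i' 2 - P i 2 * P i' 1 ≠ 0 ∨
    P i 2 * P i' 0 - P i 0 * P i' 2 ≠ 0 ∨ P i 0 * P i' 1 - P i 1 * P i' 0 ≠ 0) := by decide
lemma L_cross : ∀ i i', i ≠ i' → (L i 1 * L i' 2 - L i 2 * L i' 1 ≠ 0 ∨
    L i 2 * L i' 0 - L i 0 * L i' 2 ≠ 0 ∨ L i 0 * L i' 1 - L i 1 * L i' 0 ≠ 0) := by decide

lemma C_inc (i j : Fin 21) : ptOf (toR (P i)) ≤ lnOf (toR (L j)) ↔ inc i j = true := by
  rw [ptOf_le_lnOf, toR_dot, Int.cast_eq_zero, inc, decide_eq_true_iff]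

lemma card_inc_row : ∀ i, Fintype.card {j : Fin 21 // inc i j = true} = 4 := by decide
lemma card_inc_col : ∀ j, Fintype.card {i : Fin 21 // inc i j = true} = 4 := by decide

/-- The configuration with the homogeneous coordinates `P` and `L`. -/
noncomputable def C : Configuration 21 4 where
  point i := ptOf (toR (P i))
  line j := lnOf (toR (L j))
  finrank_point i := finrank_ptOf (toR_ne_zero (P_ne_zero i))
  finrank_line j := finrank_lnOf (toR_ne_zero (L_ne_zero j))
  point_injective := by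
    intro i i' h
    by_contra hne
    rw [ptOf_eq_iff (toR_ne_zero (P_ne_zero i)) (toR_ne_zero (P_ne_zero i'))] at h
    exact not_par_toR (P_cross i i' hne) h
  line_injective := by
    intro j j' h
    by_contra hne
    rw [lnOf_eq_iff (toR_ne_zero (L_ne_zero j)) (toR_ne_zero (L_ne_zero j'))] at h
    exact not_par_toR (L_cross j j' hne) h
  card_lines_through_point i := by
    simp_rw [C_inc]
    rw [Nat.card_eq_fintype_card]
    exact card_inc_row i
  card_points_on_line j := by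
    simp_rw [C_inc]
    rw [Nat.card_eq_fintype_card]
    exact card_inc_col j

/-- Every realization of the combinatorial type of `C` is carried to `C` by a projective
transformation. -/
lemma exists_equiv_C (D : Configuration 21 4) (hD : IsRealizationOf D C) :
    ProjectivelyEquivalent D C := by
  choose q hq0 hq using fun i => exists_ptOf (D.finrank_point i)
  choose m hm0 hm using fun j => exists_lnOf (D.finrank_line j)
  have H : Model q m :=
    { hq := hq0
      hm := hm0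
      hinc := by
        intro i j
        rw [← ptOf_le_lnOf, ← hq i, ← hm j, ← C_inc]
        exact hD i j
      hqd := by
        intro i i' hne hp
        rw [← ptOf_eq_iff (hq0 i) (hq0 i'), ← hq i, ← hq i'] at hp
        exact hne (D.point_injective hp)
      hmd := by
        intro j j' hne hp
        rw [← lnOf_eq_iff (hm0 j) (hm0 j'), ← hm j, ← hm j'] at hp
        exact hne (D.line_injective hp) }
  obtain ⟨g, hg1, hg2⟩ := H.exists_normal_form
  refine ⟨g, fun i => ?_, fun j => ?_⟩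
  · rw [hq i, map_ptOf]
    exact (ptOf_eq_iff (hg1 i).1 (toR_ne_zero (P_ne_zero i))).2 (hg1 i)
  · rw [hm j, map_lnOf]
    exact (lnOf_eq_iff (hg2 j).1 (toR_ne_zero (L_ne_zero j))).2 (hg2 j)

lemma ProjectivelyEquivalent.symm {n k : ℕ} {D E : Configuration n k}
    (h : ProjectivelyEquivalent D E) : ProjectivelyEquivalent E D := by
  obtain ⟨g, h1, h2⟩ := h
  refine ⟨g.symm, fun i => ?_, fun j => ?_⟩
  · rw [← h1 i, ← Submodule.map_comp]
    simp
  · rw [← h2 j, ← Submodule.map_comp]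
    simp

lemma ProjectivelyEquivalent.trans {n k : ℕ} {D E F : Configuration n k}
    (h : ProjectivelyEquivalent D E) (h' : ProjectivelyEquivalent E F) :
    ProjectivelyEquivalent D F := by
  obtain ⟨g, h1, h2⟩ := h
  obtain ⟨g', h1', h2'⟩ := h'
  refine ⟨g.trans g', fun i => ?_, fun j => ?_⟩
  · rw [← h1' i, ← h1 i, ← Submodule.map_comp]
    rfl
  · rw [← h2' j, ← h2 j, ← Submodule.map_comp]
    rfl

/-- There is a rigid `(21_4)` configuration: a configuration of 21 points and 21 lines of the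
real projective plane, with four lines through each point and four points on each line, any two
of whose geometric realizations are projectively equivalent. -/
theorem result : ∃ C : Configuration 21 4, IsRigid C :=
  ⟨C, fun D E hD hE => (exists_equiv_C D hD).trans (exists_equiv_C E hE).symm⟩

end Pool.Agent.Results.MP_409c19_co.RigidFourConfiguration
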